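import Pool.Agent.helper14.SCO.Spec

/-!
# Row sco:STP: the step of the recursion
-/

set_option autoImplicit false

namespace Pool.Agent.SCO

open Pool.Agent.Scheepers Cardinal

theorem STP_sel (K : Set (ℕ → Bool)) (hK : K.Countable) (U : ℕ → ℕ → Set (ℕ → Bool)) :
    ∃ f : ℕ → ℕ, (∀ n, ∀ A : Finset (ℕ → Bool), (∀ a ∈ A, a ∈ K) → ∃ m, ∀ a ∈ A, a ∈ U n m) →
      ∀ A : Finset (ℕ → Bool), (∀ a ∈ A, a ∈ K) → ∃ n, ∀ a ∈ A, a ∈ U n (f n) := by
  classical
  by_cases hp : ∀ n, ∀ A : Finset (ℕ → Bool), (∀ a ∈ A, a ∈ K) → ∃ m, ∀ a ∈ A, a ∈ U n m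
  · have : Countable K := hK.to_subtype
    obtain ⟨e, he⟩ := exists_surjective_nat (Finset K)
    have h1 : ∀ n, ∃ m, ∀ a ∈ (e n).map (Function.Embedding.subtype (· ∈ K)), a ∈ U n m := by
      intro n
      refine hp n _ ?_
      intro a ha
      rw [Finset.mem_map] at ha
      obtain ⟨b, _, rfl⟩ := ha
      exact b.2
    choose f hf using h1
    refine ⟨f, fun _ A hA => ?_⟩
    obtain ⟨n, hn⟩ := he (A.subtype (· ∈ K))
    refine ⟨n, fun a ha => hf n a ?_⟩
    rw [hn, Finset.mem_map]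
    exact ⟨⟨a, hA a ha⟩, by rw [Finset.mem_subtype]; exact ha, rfl⟩
  · exact ⟨fun _ => 0, fun h => absurd h hp⟩

theorem STP_open (U : ℕ → ℕ → Set (ℕ → Bool)) (hU : ∀ n m, IsOpen (U n m)) (f : ℕ → ℕ)
    (A : Finset (ℕ → Bool)) : IsOpen (Vst U f A) := by
  have h : Vst U f A = ⋃ n, ⋃ (_ : ∀ a ∈ A, a ∈ U n (f n)), U n (f n) := by
    ext y
    simp only [Vst, Set.mem_ofPred_eq, Set.mem_iUnion, exists_prop]
  rw [h]
  exact isOpen_iUnion fun n => isOpen_iUnion fun _ => hU n (f n)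

theorem STP (h1 : DCT_stmt) (h2 : NON_stmt) (h3 : FUS_stmt) (h4 : LOW_stmt) (h5 : XPT_stmt) :
    STP_stmt := by
  classical
  intro ι r _ W h U b hW hU i hi G hG
  -- the lower bound
  obtain ⟨q0, hq0⟩ : ∃ q0 : Cond, ∀ j hj, q0.le (G j hj).2.1 := by
    rcases isEmpty_or_nonempty {j // r j i} with he | he
    · obtain ⟨q⟩ := h2
      exact ⟨q, fun j hj => (he.false ⟨j, hj⟩).elim⟩
    · obtain ⟨q, hq⟩ := h4 {j // r j i} (fun j => (G j.1 j.2).2.1) (by
        intro j j'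
        rcases trichotomous_of r j.1 j'.1 with h1 | h1 | h1
        · exact Or.inr (hG _ _ _ _ h1)
        · have : j = j' := Subtype.ext h1
          subst this
          exact Or.inl (Cond.le_refl _)
        · exact Or.inl (hG _ _ _ _ h1))
      exact ⟨q, fun j hj => hq ⟨j, hj⟩⟩
  -- the known points
  have hOld : {z | Old r i G z}.Countable := by
    have h6 : {z | Old r i G z} = D ∪ Set.range (fun j : {j // r j i} => (G j.1 j.2).1) := by
      ext z
      simp only [Old, Set.mem_ofPred_eq, Set.mem_union, Set.mem_range, Subtype.exists]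
      constructor
      · rintro (h7 | ⟨j, hj, h7⟩)
        · exact Or.inl h7
        · exact Or.inr ⟨j, hj, h7.symm⟩
      · rintro (h7 | ⟨j, hj, h7⟩)
        · exact Or.inl h7
        · exact Or.inr ⟨j, hj, h7.symm⟩
    rw [h6]
    exact Set.Countable.union h1 (Set.countable_range _)
  have hKno : ∀ x : ℕ → Bool, {z | Old r i G z ∨ z = x}.Countable := by
    intro x
    have h6 : {z | Old r i G z ∨ z = x} = {z | Old r i G z} ∪ {x} := by
      ext z
      simp only [Set.mem_ofPred_eq, Set.mem_union, Set.mem_singleton_iff]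
    rw [h6]
    exact hOld.union (Set.countable_singleton x)
  -- the neighbourhoods
  obtain ⟨V, hV⟩ : ∃ V : ℕ → Set (ℕ → Bool), Nbhd V ∧ ∀ j hj, ∀ A : Finset (ℕ → Bool),
      (∀ a ∈ A, Old r i G a) → D ⊆ Vst (U j) (G j hj).2.2 A → ∃ k, V k = Vst (U j) (G j hj).2.2 A := by
    have : Countable {z | Old r i G z} := hOld.to_subtype
    let g : {j // r j i} × Finset {z | Old r i G z} → Set (ℕ → Bool) := fun p =>
      Vst (U p.1.1) (G p.1.1 p.1.2).2.2 (p.2.map (Function.Embedding.subtype _))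
    let 𝒱 : Set (Set (ℕ → Bool)) := insert Set.univ (Set.range g ∩ {O | D ⊆ O})
    have hc : 𝒱.Countable := ((Set.countable_range g).mono Set.inter_subset_left).insert _
    obtain ⟨V, hV⟩ := hc.exists_eq_range ⟨Set.univ, Set.mem_insert _ _⟩
    refine ⟨V, ?_, ?_⟩
    · intro k
      have hk : V k ∈ 𝒱 := by rw [hV]; exact ⟨k, rfl⟩
      rcases hk with hk | ⟨⟨p, hp⟩, hk2⟩
      · rw [hk]
        exact ⟨isOpen_univ, Set.subset_univ _⟩
      · refine ⟨?_, hk2⟩
        rw [← hp]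
        exact STP_open _ (hU _) _ _
    · intro j hj A hA hD
      have hmem : Vst (U j) (G j hj).2.2 A ∈ 𝒱 := by
        refine Or.inr ⟨⟨(⟨j, hj⟩, A.subtype (· ∈ {z | Old r i G z})), ?_⟩, hD⟩
        show Vst (U j) (G j hj).2.2 ((A.subtype (· ∈ {z | Old r i G z})).map
          (Function.Embedding.subtype _)) = _
        congr 1
        rw [Finset.subtype_map]
        exact Finset.filter_true_of_mem hA
      rw [hV] at hmem
      exact hmem
  obtain ⟨hNb, hV⟩ := hV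
  have hpt : ∀ y, Gen V y → ∀ j hj, ∀ A : Finset (ℕ → Bool), (∀ a ∈ A, Old r i G a) →
      D ⊆ Vst (U j) (G j hj).2.2 A → y ∈ Vst (U j) (G j hj).2.2 A := by
    intro y hy j hj A hA hD
    obtain ⟨k, hk⟩ := hV j hj A hA hD
    rw [← hk]
    exact hy.2 k
  by_cases hk : ∃ y ∈ q0.star, Gen V y ∧ Kills (W i) y
  · obtain ⟨y, hy1, hy2, hy3⟩ := hk
    obtain ⟨f, hf⟩ := STP_sel _ (hKno y) (U i)
    exact ⟨(y, q0, f), hq0, fun j hj => Cond.star_sub (hq0 j hj) hy1, hy2.1, hpt y hy2,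
      Or.inl ⟨y, Or.inr rfl, hy3⟩, hf⟩
  · obtain ⟨x, hx1, hx2, hx3⟩ := h5 q0 (h i) V hNb
    obtain ⟨f, hf⟩ := STP_sel _ (hKno x) (U i)
    by_cases hk2 : ∃ z, Kno r i G (x, q0, f) z ∧ Kills (W i) z
    · exact ⟨(x, q0, f), hq0, fun j hj => Cond.star_sub (hq0 j hj) hx1, hx2.1, hpt x hx2,
        Or.inl hk2, hf⟩
    · have hnk : ∀ z, ¬ Kills (W i) z → ∀ n, ∃ k0, ∀ k, k0 ≤ k → z ∉ W i n k := by
        intro z hz n
        by_contra hcon
        push Not at hcon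
        exact hz ⟨n, fun k0 => hcon k0⟩
      obtain ⟨c, hc⟩ := (hKno x).exists_eq_range ⟨x, Or.inr rfl⟩
      have hc' : ∀ n, Kno r i G (x, q0, f) (c n) := by
        intro n
        have : c n ∈ {z | Old r i G z ∨ z = x} := by rw [hc]; exact ⟨n, rfl⟩
        exact this
      obtain ⟨q, hq, κ, hκ1, hκ2⟩ := h3 q0 (W i) (b i) (hW i) V hNb
        (fun n z hz hz2 => hnk z (fun hzk => hk ⟨z, hz, hz2, hzk⟩) n) c
        (fun m n => hnk (c m) (fun hzk => hk2 ⟨_, hc' m, hzk⟩) n)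
      refine ⟨(x, q, f), fun j hj => Cond.le_trans hq (hq0 j hj),
        fun j hj => Cond.star_sub (hq0 j hj) hx1, hx2.1, hpt x hx2, Or.inr ⟨hx3, κ, hκ1, ?_⟩, hf⟩
      intro z hz
      have hz' : z ∈ {z | Old r i G z ∨ z = x} := hz
      rw [hc] at hz'
      obtain ⟨n, rfl⟩ := hz'
      exact hκ2 n

end Pool.Agent.SCO
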